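import Mathlib

/-!
# Symplectic shears

For an alternating form `ω` on a vector space `V`, a vector `a` and a polynomial `p` we consider the
bijection `x ↦ x + p(ω(a, x)) a` of `V`.
-/

namespace Q47.SP

open Polynomial

variable {K V : Type*} [Field K] [AddCommGroup V] [Module K V]
variable {ω : V →ₗ[K] V →ₗ[K] K}

lemma anti (halt : ∀ x, ω x x = 0) (x y : V) : ω x y = - ω y x := by
  have h := halt (x + y)
  simp only [map_add, LinearMap.add_apply, halt, zero_add, add_zero] at h
  linear_combination h

/-- the shear `x ↦ x + p(ω(a, x)) a` -/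
def sh (halt : ∀ x, ω x x = 0) (a : V) (p : K[X]) : Equiv.Perm V where
  toFun x := x + p.eval (ω a x) • a
  invFun x := x - p.eval (ω a x) • a
  left_inv x := by
    have : ω a (x + p.eval (ω a x) • a) = ω a x := by simp [halt]
    change (x + p.eval (ω a x) • a) - p.eval (ω a (x + p.eval (ω a x) • a)) • a = x
    rw [this, add_sub_cancel_right]
  right_inv x := by
    have : ω a (x - p.eval (ω a x) • a) = ω a x := by simp [halt]
    change (x - p.eval (ω a x) • a) + p.eval (ω a (x - p.eval (ω a x) • a)) • a = x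
    rw [this, sub_add_cancel]

variable (halt : ∀ x, ω x x = 0)

lemma sh_apply (a : V) (p : K[X]) (x : V) : sh halt a p x = x + p.eval (ω a x) • a := rfl

lemma sh_add (a : V) (p q : K[X]) : sh halt a (p + q) = sh halt a p * sh halt a q := by
  ext x
  have : ω a (x + q.eval (ω a x) • a) = ω a x := by simp [halt]
  simp only [Equiv.Perm.mul_apply, sh_apply, this, eval_add, add_smul]
  abel

lemma sh_zero (a : V) : sh halt a 0 = 1 := by
  ext x
  simp [sh_apply]

lemma sh_neg (a : V) (p : K[X]) : sh halt a (-p) = (sh halt a p)⁻¹ := by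
  rw [eq_inv_iff_mul_eq_one, ← sh_add, neg_add_cancel, sh_zero]

lemma sh_zero_left (p : K[X]) : sh halt 0 p = 1 := by
  ext x
  simp [sh_apply]

lemma sh_smul (c : K) (a : V) (p : K[X]) :
    sh halt (c • a) p = sh halt a (C c * p.comp (C c * X)) := by
  ext x
  simp only [sh_apply, map_smul, LinearMap.smul_apply, smul_eq_mul, eval_mul, eval_C, eval_comp,
    eval_X, smul_smul]
  rw [mul_comm c (p.eval _)]

/-- conjugation by a linear symplectic map -/
lemma sh_conj (g : Equiv.Perm V) (hadd : ∀ x y, g (x + y) = g x + g y)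
    (hsm : ∀ (c : K) x, g (c • x) = c • g x) (hω : ∀ x y, ω (g x) (g y) = ω x y) (a : V)
    (p : K[X]) : g * sh halt a p * g⁻¹ = sh halt (g a) p := by
  ext x
  have h0 : g (g⁻¹ x) = x := Equiv.apply_symm_apply g x
  have h1 : ω (g a) x = ω a (g⁻¹ x) := by
    rw [← hω a (g⁻¹ x), h0]
  simp only [Equiv.Perm.mul_apply, sh_apply, hadd, hsm, h0, h1]

/-- the transvections are linear and symplectic -/
lemma tv_add (a : V) (s : K) (x y : V) :
    sh halt a (C s * X) (x + y) = sh halt a (C s * X) x + sh halt a (C s * X) y := by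
  simp only [sh_apply, eval_mul, eval_C, eval_X, map_add, mul_add, add_smul]
  abel

lemma tv_smul (a : V) (s c : K) (x : V) :
    sh halt a (C s * X) (c • x) = c • sh halt a (C s * X) x := by
  simp only [sh_apply, eval_mul, eval_C, eval_X, map_smul, smul_add, smul_smul, smul_eq_mul]
  congr 2
  ring

lemma tv_omega (a : V) (s : K) (x y : V) :
    ω (sh halt a (C s * X) x) (sh halt a (C s * X) y) = ω x y := by
  simp only [sh_apply, eval_mul, eval_C, eval_X, map_add, map_smul, LinearMap.add_apply,
    LinearMap.smul_apply, smul_eq_mul, halt]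
  rw [anti halt x a]
  ring

lemma tv_conj (a b : V) (s : K) (p : K[X]) :
    sh halt a (C s * X) * sh halt b p * (sh halt a (C s * X))⁻¹ =
      sh halt (b + (s * ω a b) • a) p := by
  rw [sh_conj halt _ (tv_add halt a s) (fun c x => tv_smul halt a s c x) (tv_omega halt a s)]
  rw [sh_apply]
  simp

/-! ### Moving shears by transvections -/

section group

variable {halt} {G : Subgroup (Equiv.Perm V)}

omit [AddCommGroup V] in
lemma conj_mem {g h : Equiv.Perm V} (hg : g ∈ G) (hh : h ∈ G) : g * h * g⁻¹ ∈ G :=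
  G.mul_mem (G.mul_mem hg hh) (G.inv_mem hg)

/-- If all transvections along `b` and `sh a p` are in `G` and `ω(b, a) ≠ 0`, then `sh (a + c b) p` is
in `G`. -/
lemma sh_move {a b : V} {p : K[X]} (hb : ∀ s, sh halt b (C s * X) ∈ G) (ha : sh halt a p ∈ G)
    (hba : ω b a ≠ 0) (c : K) : sh halt (a + c • b) p ∈ G := by
  have h := conj_mem (hb (c / ω b a)) ha
  rwa [tv_conj, div_mul_cancel₀ _ hba] at h

/-- the vectors `a` all of whose transvections are in `G` -/
def tvSet (halt : ∀ x, ω x x = 0) (G : Subgroup (Equiv.Perm V)) : Set V :=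
  {a | ∀ s, sh halt a (C s * X) ∈ G}

lemma zero_mem : (0 : V) ∈ tvSet halt G := by
  intro s
  rw [sh_zero_left]
  exact G.one_mem

lemma smul_mem {a : V} (ha : a ∈ tvSet halt G) (c : K) : c • a ∈ tvSet halt G := by
  intro s
  rw [sh_smul]
  have : (C c * (C s * X).comp (C c * X) : K[X]) = C (c * (s * c)) * X := by
    simp only [mul_comp, C_comp, X_comp, map_mul]
    ring
  rw [this]
  exact ha _

lemma add_mem {a b : V} (ha : a ∈ tvSet halt G) (hb : b ∈ tvSet halt G) (hab : ω a b ≠ 0) (c : K) :
    a + c • b ∈ tvSet halt G := by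
  intro s
  apply sh_move hb (ha s)
  rwa [anti halt, neg_ne_zero]

/-- If the vectors `v s` are in the set, are pairwise not orthogonal, span `V` and are such that for
any nonzero `u` one has `ω(u, v s) ≠ 0` for almost all `s`, then the set is everything. -/
lemma tvSet_eq_univ [Infinite K] (v : K → V) (hv : ∀ s, v s ∈ tvSet halt G)
    (hne : ∀ s t, s ≠ t → ω (v s) (v t) ≠ 0) (hspan : Submodule.span K (Set.range v) = ⊤)
    (hfin : ∀ u, u ≠ 0 → {s | ω u (v s) = 0}.Finite) (x : V) : x ∈ tvSet halt G := by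
  have key : ∀ u ∈ tvSet halt G, ∀ (c : K) (s : K), u + c • v s ∈ tvSet halt G := by
    intro u hu c s
    by_cases hu0 : u = 0
    · rw [hu0, zero_add]
      exact smul_mem (hv s) c
    by_cases hw0 : u + c • v s = 0
    · rw [hw0]
      exact zero_mem
    obtain ⟨s₀, hs₀⟩ := (((hfin _ hu0).union (hfin _ hw0)).union (Set.finite_singleton s)).exists_notMem
    simp only [Set.mem_union, Set.mem_ofPred_eq, Set.mem_singleton_iff, not_or] at hs₀
    obtain ⟨⟨h1, h2⟩, h3⟩ := hs₀
    have h4 := hne s₀ s h3
    -- choose `c'` with `ω(u + c' v s₀, v s) ≠ 0`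
    obtain ⟨c', hc'⟩ : ∃ c' : K, ω u (v s) + c' * ω (v s₀) (v s) ≠ 0 := by
      by_cases h5 : ω u (v s) = 0
      · exact ⟨1, by rw [h5, zero_add, one_mul]; exact h4⟩
      · exact ⟨0, by rwa [zero_mul, add_zero]⟩
    have e1 : u + c' • v s₀ ∈ tvSet halt G := add_mem hu (hv s₀) h1 c'
    have e2 : (u + c' • v s₀) + c • v s ∈ tvSet halt G := by
      apply add_mem e1 (hv s)
      simpa using hc'
    have e3 : ((u + c' • v s₀) + c • v s) + (-c') • v s₀ ∈ tvSet halt G := by
      apply add_mem e2 (hv s₀)
      have : (u + c' • v s₀) + c • v s = (u + c • v s) + c' • v s₀ := by abel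
      rw [this, map_add, LinearMap.add_apply, map_smul, LinearMap.smul_apply, halt, smul_zero,
        add_zero]
      exact h2
    have e4 : ((u + c' • v s₀) + c • v s) + (-c') • v s₀ = u + c • v s := by
      rw [neg_smul]; abel
    rwa [e4] at e3
  have key2 : ∀ y ∈ Submodule.span K (Set.range v), ∀ u ∈ tvSet halt G, ∀ c : K,
      u + c • y ∈ tvSet halt G := by
    intro y hy
    induction hy using Submodule.span_induction with
    | mem y hy =>
      obtain ⟨s, rfl⟩ := hy
      exact fun u hu c => key u hu c s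
    | zero =>
      intro u hu c
      simpa using hu
    | add y z _ _ hy hz =>
      intro u hu c
      rw [smul_add, ← add_assoc]
      exact hz _ (hy u hu c) c
    | smul d y _ hy =>
      intro u hu c
      rw [smul_smul]
      exact hy u hu (c * d)
  have := key2 x (by rw [hspan]; trivial) 0 zero_mem 1
  simpa using this

/-- If all transvections are in `G`, then shears can be moved from `a` to any other nonzero
vector. -/
lemma sh_transfer [Infinite K] (hnd : ∀ x, (∀ y, ω x y = 0) → x = 0)
    (hT : ∀ a, a ∈ tvSet halt G) {a b : V} {p : K[X]} (ha : a ≠ 0) (hb : b ≠ 0)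
    (h : sh halt a p ∈ G) : sh halt b p ∈ G := by
  have step : ∀ {a b : V}, ω a b ≠ 0 → sh halt a p ∈ G → sh halt b p ∈ G := by
    intro a b hab h
    have h1 := sh_move (b := b - a) (a := a) (p := p) (hT (b - a)) h (by
      rw [map_sub, LinearMap.sub_apply, halt, sub_zero, anti halt, neg_ne_zero]
      exact hab) 1
    rwa [one_smul, add_sub_cancel] at h1
  by_cases hab : ω a b = 0
  · -- an intermediate vector
    obtain ⟨z, hz⟩ : ∃ z, ω a z ≠ 0 ∧ ω b z ≠ 0 := by
      obtain ⟨z₁, hz₁⟩ : ∃ z, ω a z ≠ 0 := by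
        by_contra hcon
        push Not at hcon
        exact ha (hnd a hcon)
      obtain ⟨z₂, hz₂⟩ : ∃ z, ω b z ≠ 0 := by
        by_contra hcon
        push Not at hcon
        exact hb (hnd b hcon)
      by_cases h1 : ω b z₁ = 0
      · by_cases h2 : ω a z₂ = 0
        · refine ⟨z₁ + z₂, ?_, ?_⟩
          · rwa [map_add, h2, add_zero]
          · rwa [map_add, h1, zero_add]
        · exact ⟨z₂, h2, hz₂⟩
      · exact ⟨z₁, hz₁, h1⟩
    apply step (a := z) _ (step hz.1 h)
    rw [anti halt, neg_ne_zero]
    exact hz.2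
  · exact step hab h

end group

end Q47.SP
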