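import Mathlib
import Pool.Agent.Q47.SP.Basic

/-!
# Symplectic shears: raising the degree
-/

namespace Q47.SP

open Polynomial

section vander

variable {K M : Type*} [Field K] [Infinite K] [AddCommGroup M] [Module K M]

/-- If all values of a vector valued polynomial lie in a subspace, so do its coefficients. -/
lemma coeff_mem (W : Submodule K M) (n : ℕ) (v : ℕ → M)
    (h : ∀ c : K, ∑ j ∈ Finset.range n, c ^ j • v j ∈ W) : ∀ j < n, v j ∈ W := by
  intro j hj
  by_contra hv
  obtain ⟨f, hf, hW⟩ := W.exists_le_ker_of_notMem hv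
  apply hf
  have h1 : (∑ j ∈ Finset.range n, monomial j (f (v j)) : K[X]) = 0 := by
    apply Polynomial.funext
    intro c
    have h2 := hW (h c)
    rw [LinearMap.mem_ker, map_sum] at h2
    rw [eval_zero, eval_finsetSum, ← h2]
    refine Finset.sum_congr rfl fun i _ => ?_
    rw [eval_monomial, map_smul, smul_eq_mul, mul_comm]
  have h3 := congrArg (fun p => p.coeff j) h1
  simp only [finsetSum_coeff, coeff_monomial, coeff_zero] at h3
  rw [Finset.sum_ite_eq' (Finset.range n) j] at h3
  rwa [if_pos (Finset.mem_range.2 hj)] at h3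

end vander

variable {K V : Type*} [Field K] [AddCommGroup V] [Module K V]
variable {ω : V →ₗ[K] V →ₗ[K] K} (halt : ∀ x, ω x x = 0)

/-- the map `x ↦ x + f(ω(a,x), ω(b,x)) a + g(ω(a,x), ω(b,x)) b` -/
def th {a b : V} (hab : ω a b = 0) (F : K → K → K × K) : Equiv.Perm V where
  toFun x := x + (F (ω a x) (ω b x)).1 • a + (F (ω a x) (ω b x)).2 • b
  invFun x := x - (F (ω a x) (ω b x)).1 • a - (F (ω a x) (ω b x)).2 • b
  left_inv x := by
    have hba : ω b a = 0 := by rw [anti halt, hab, neg_zero]
    have h1 : ∀ s t : K, ω a (x + s • a + t • b) = ω a x := by intro s t; simp [halt, hab]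
    have h2 : ∀ s t : K, ω b (x + s • a + t • b) = ω b x := by intro s t; simp [halt, hba]
    simp only [h1, h2]
    abel
  right_inv x := by
    have hba : ω b a = 0 := by rw [anti halt, hab, neg_zero]
    have h1 : ∀ s t : K, ω a (x - s • a - t • b) = ω a x := by intro s t; simp [halt, hab]
    have h2 : ∀ s t : K, ω b (x - s • a - t • b) = ω b x := by intro s t; simp [halt, hba]
    simp only [h1, h2]
    abel

variable {halt}

lemma th_apply {a b : V} (hab : ω a b = 0) (F : K → K → K × K) (x : V) :
    th halt hab F x = x + (F (ω a x) (ω b x)).1 • a + (F (ω a x) (ω b x)).2 • b := rfl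

lemma th_add {a b : V} (hab : ω a b = 0) (F F' : K → K → K × K) :
    th halt hab (F + F') = th halt hab F * th halt hab F' := by
  ext x
  have hba : ω b a = 0 := by rw [anti halt, hab, neg_zero]
  have h1 : ∀ s t : K, ω a (x + s • a + t • b) = ω a x := by intro s t; simp [halt, hab]
  have h2 : ∀ s t : K, ω b (x + s • a + t • b) = ω b x := by intro s t; simp [halt, hba]
  simp only [Equiv.Perm.mul_apply, th_apply, h1, h2, Pi.add_apply, Prod.fst_add, Prod.snd_add,
    add_smul]
  abel

lemma th_zero {a b : V} (hab : ω a b = 0) : th halt hab (0 : K → K → K × K) = 1 := by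
  ext x
  simp [th_apply]

/-- the linear space of all `F` all of whose multiples give elements of `G` -/
def thSpace (halt : ∀ x, ω x x = 0) (G : Subgroup (Equiv.Perm V)) {a b : V} (hab : ω a b = 0) :
    Submodule K (K → K → K × K) where
  carrier := {F | ∀ c : K, th halt hab (c • F) ∈ G}
  add_mem' := by
    intro F F' hF hF' c
    rw [smul_add, th_add]
    exact G.mul_mem (hF c) (hF' c)
  zero_mem' := by
    intro c
    rw [smul_zero, th_zero]
    exact G.one_mem
  smul_mem' := by
    intro c F hF d
    rw [smul_smul]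
    exact hF _

lemma mem_thSpace {G : Subgroup (Equiv.Perm V)} {a b : V} (hab : ω a b = 0)
    (F : K → K → K × K) : F ∈ thSpace halt G hab ↔ ∀ c : K, th halt hab (c • F) ∈ G := Iff.rfl

/-- If the shears of degree `m` are in the group, so are the maps
`x ↦ x + u (m X^{m-1} Y a + X^m b)`. -/
lemma th_mem [Infinite K] {G : Subgroup (Equiv.Perm V)} {m : ℕ} (hm : 1 ≤ m)
    (h : ∀ (a : V) (t : K), sh halt a (C t * X ^ m) ∈ G) {a b : V} (hab : ω a b = 0) (u : K) :
    th halt hab (fun s t => (u * (m * s ^ (m - 1) * t), u * s ^ m)) ∈ G := by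
  have key := coeff_mem (thSpace halt G hab) (m + 2) (fun j => fun s t =>
    ((m.choose j : K) * (s ^ (m - j) * t ^ j),
      if j = 0 then 0 else (m.choose (j - 1) : K) * (s ^ (m - (j - 1)) * t ^ (j - 1)))) ?_ 1
    (by omega)
  · rw [mem_thSpace] at key
    have := key u
    convert this using 2
    funext s t
    simp [mul_assoc]
  · intro c
    rw [mem_thSpace]
    intro r
    have h1 := h (a + c • b) r
    convert h1 using 1
    ext x
    rw [th_apply, sh_apply]
    simp only [Pi.smul_apply, Finset.sum_apply, Prod.smul_mk, Prod.fst_sum, Prod.snd_sum,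
      smul_eq_mul, Prod.smul_fst, Prod.smul_snd, map_add, map_smul, LinearMap.add_apply,
      LinearMap.smul_apply, eval_mul, eval_C, eval_pow, eval_X]
    have e1 : ∑ j ∈ Finset.range (m + 2), c ^ j * ((m.choose j : K) *
        ((ω a) x ^ (m - j) * (ω b) x ^ j)) = (ω a x + c * ω b x) ^ m := by
      rw [add_comm (ω a x), add_pow, Finset.sum_range_succ, Nat.choose_succ_self]
      simp only [Nat.cast_zero, zero_mul, mul_zero, add_zero]
      refine Finset.sum_congr rfl fun j _ => ?_
      ring
    have e2 : ∑ j ∈ Finset.range (m + 2), c ^ j * (if j = 0 then 0 else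
        (m.choose (j - 1) : K) * ((ω a) x ^ (m - (j - 1)) * (ω b) x ^ (j - 1))) =
        c * (ω a x + c * ω b x) ^ m := by
      rw [add_comm (ω a x), add_pow, Finset.sum_range_succ', Finset.mul_sum]
      simp only [if_true, mul_zero, add_zero]
      refine Finset.sum_congr rfl fun j _ => ?_
      rw [if_neg (Nat.succ_ne_zero j), Nat.add_sub_cancel]
      ring
    rw [e1, e2, smul_add, smul_smul, add_assoc]
    congr 3
    ring

/-- the commutator identity -/
lemma th_comm {m : ℕ} (hm : 1 ≤ m) {a b c : V} (hab : ω a b = 0) (hac : ω a c = 0)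
    (hbc : ω b c = 1) (u w : K) :
    th halt hab (fun s t => (u * (m * s ^ (m - 1) * t), u * s ^ m)) *
      th halt hac (fun s t => (w * ((2 : ℕ) * s ^ (2 - 1) * t), w * s ^ 2)) =
    sh halt a (C ((m + 2) * (u * w)) * X ^ (m + 1)) *
      th halt hac (fun s t => (w * ((2 : ℕ) * s ^ (2 - 1) * t), w * s ^ 2)) *
      th halt hab (fun s t => (u * (m * s ^ (m - 1) * t), u * s ^ m)) := by
  ext x
  have hba : ω b a = 0 := by rw [anti halt, hab, neg_zero]
  have hca : ω c a = 0 := by rw [anti halt, hac, neg_zero]
  have hcb : ω c b = -1 := by rw [anti halt, hbc]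
  obtain ⟨k, rfl⟩ : ∃ k, m = k + 1 := ⟨m - 1, by omega⟩
  simp only [Equiv.Perm.mul_apply, th_apply, sh_apply, map_add, map_smul, halt, hab, hac, hba, hca,
    hbc, hcb, smul_eq_mul, mul_zero, add_zero, eval_mul, eval_C, eval_pow, eval_X, mul_one]
  simp only [add_assoc, add_right_inj]
  simp only [Nat.add_sub_cancel]
  have : ∀ (p q r s p' q' r' s' z : K), p + q = p' + q' + z → r = r' → s = s' →
    p • a + (r • c + (q • a + s • b)) = p' • a + (s' • b + (q' • a + (r' • c + z • a))) := by
    intro p q r s p' q' r' s' z h1 h2 h3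
    subst h2 h3
    have : p = p' + q' + z - q := by rw [← h1]; ring
    rw [this]
    module
  apply this
  · push_cast
    ring
  · ring
  · ring

end Q47.SP
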