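import Mathlib
import Pool.Agent.Q47.SP.Ind

/-!
# Symplectic shears: infinite transitivity
-/

namespace Q47.SP

open Polynomial

variable {K V : Type*} [Field K] [AddCommGroup V] [Module K V]
variable {ω : V →ₗ[K] V →ₗ[K] K} {halt : ∀ x, ω x x = 0}
variable {G : Subgroup (Equiv.Perm V)}

/-- From `t (1 + X²)` to `t X²` and `t`. -/
lemma sq_mem [CharZero K] (h : ∀ (a : V) (t : K), sh halt a (C t * (1 + X ^ 2)) ∈ G) (a : V) (t : K) :
    sh halt a (C t * X ^ 2) ∈ G ∧ sh halt a (C t * X ^ 0) ∈ G := by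
  have hsq : ∀ t : K, sh halt a (C t * X ^ 2) ∈ G := by
    intro t
    have h1 := h ((2 : K) • a) (t / 6)
    have h2 := h a (2 * (t / 6))
    rw [sh_smul] at h1
    have h3 := G.mul_mem h1 (G.inv_mem h2)
    rw [← sh_neg, ← sh_add] at h3
    convert h3 using 2
    simp only [mul_comp, C_comp, add_comp, one_comp, pow_comp, X_comp, map_mul]
    have e : (C t : K[X]) = C (t / 6) * C 6 := by
      rw [← C_mul]
      congr 1
      field_simp
    have e2 : (C 6 : K[X]) = 6 := rfl
    have e3 : (C 2 : K[X]) = 2 := rfl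
    rw [e, e2, e3]
    ring
  refine ⟨hsq t, ?_⟩
  have h4 := G.mul_mem (h a t) (G.inv_mem (hsq t))
  rw [← sh_neg, ← sh_add] at h4
  convert h4 using 2
  ring

omit [AddCommGroup V] in
lemma comm_solve {A B S : Equiv.Perm V} (h : A * B = S * B * A) : S = A * B * (B * A)⁻¹ := by
  rw [h]
  group

/-- All powers. -/
lemma pow_mem [CharZero K] (hnd : ∀ x, (∀ y, ω x y = 0) → x = 0)
    (hT : ∀ a, a ∈ tvSet halt G) {a b c : V} (ha : a ≠ 0) (hab : ω a b = 0) (hac : ω a c = 0)
    (hbc : ω b c = 1)
    (h2 : ∀ (a : V) (t : K), sh halt a (C t * X ^ 2) ∈ G) (m : ℕ) (hm : 2 ≤ m) :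
    ∀ (a : V) (t : K), sh halt a (C t * X ^ m) ∈ G := by
  induction m, hm using Nat.le_induction with
  | base => exact h2
  | succ m hm ih =>
    intro d t
    by_cases hd : d = 0
    · rw [hd, sh_zero_left]
      exact G.one_mem
    apply sh_transfer hnd hT ha hd
    have hA := th_mem (by omega : 1 ≤ m) ih hab (t / (m + 2))
    have hB := th_mem (by omega : 1 ≤ 2) h2 hac 1
    have hcomm := th_comm (by omega : 1 ≤ m) hab hac hbc (t / (m + 2)) (1 : K) (halt := halt)
    have hne : ((m : K) + 2) ≠ 0 := by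
      have : ((m + 2 : ℕ) : K) ≠ 0 := Nat.cast_ne_zero.2 (by omega)
      push_cast at this
      exact this
    have e : ((m : K) + 2) * (t / (m + 2) * 1) = t := by field_simp
    rw [e] at hcomm
    rw [comm_solve hcomm]
    exact G.mul_mem (G.mul_mem hA hB) (G.inv_mem (G.mul_mem hB hA))

/-- All shears. -/
lemma all_mem [CharZero K] (hnd : ∀ x, (∀ y, ω x y = 0) → x = 0)
    (hT : ∀ a, a ∈ tvSet halt G) {a b c : V} (ha : a ≠ 0) (hab : ω a b = 0) (hac : ω a c = 0)
    (hbc : ω b c = 1)
    (h : ∀ (a : V) (t : K), sh halt a (C t * (1 + X ^ 2)) ∈ G) (d : V) (p : K[X]) :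
    sh halt d p ∈ G := by
  have h2 : ∀ (a : V) (t : K), sh halt a (C t * X ^ 2) ∈ G := fun a t => (sq_mem h a t).1
  induction p using Polynomial.induction_on' with
  | add p q hp hq =>
    rw [sh_add]
    exact G.mul_mem hp hq
  | monomial m t =>
    rw [← C_mul_X_pow_eq_monomial]
    match m with
    | 0 => exact (sq_mem h d t).2
    | 1 =>
      have := hT d t
      rwa [pow_one]
    | (m + 2) => exact pow_mem hnd hT ha hab hac hbc h2 (m + 2) (by omega) d t

/-- Moving one point, fixing finitely many others. -/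
lemma move_one [Infinite K] (hsh : ∀ (d : V) (p : K[X]), sh halt d p ∈ G)
    (hgen : ∀ S : Finset V, 0 ∉ S → ∃ v : V, ∀ u ∈ S, ω v u ≠ 0) (S : Finset V) {z y : V}
    (hz : z ∉ S) (hy : y ∉ S) : ∃ g ∈ G, g z = y ∧ ∀ x ∈ S, g x = x := by
  classical
  -- one step
  have step : ∀ z w : V, (∀ x ∈ S, ω (w - z) (x - z) ≠ 0) → ∃ g ∈ G, g z = w ∧ ∀ x ∈ S, g x = x := by
    intro z w hw
    set a := w - z with ha
    let p : K[X] := C ((∏ x ∈ S, (ω a z - ω a x))⁻¹) * ∏ x ∈ S, (X - C (ω a x))
    refine ⟨sh halt a p, hsh a p, ?_, ?_⟩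
    · rw [sh_apply]
      have : p.eval (ω a z) = 1 := by
        simp only [p, eval_mul, eval_C, eval_prod, eval_sub, eval_X]
        apply inv_mul_cancel₀
        rw [Finset.prod_ne_zero_iff]
        intro x hx
        have := hw x hx
        rw [map_sub] at this
        intro h0
        apply this
        linear_combination -h0
      rw [this, one_smul, ha]
      abel
    · intro x hx
      rw [sh_apply]
      have : p.eval (ω a x) = 0 := by
        simp only [p, eval_mul, eval_C, eval_prod, eval_sub, eval_X]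
        have h0 : ∏ x' ∈ S, (ω a x - ω a x') = 0 := Finset.prod_eq_zero hx (sub_self (ω a x))
        rw [h0, mul_zero]
      rw [this, zero_smul, add_zero]
  -- the intermediate point
  obtain ⟨v, hv⟩ := hgen ((S.image fun x => x - z) ∪ (S.image fun x => x - y)) (by
    simp only [Finset.mem_union, Finset.mem_image, not_or, not_exists, not_and]
    constructor
    · intro x hx h0
      rw [sub_eq_zero] at h0
      exact hz (h0 ▸ hx)
    · intro x hx h0
      rw [sub_eq_zero] at h0
      exact hy (h0 ▸ hx))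
  obtain ⟨r, hr⟩ := Infinite.exists_notMem_finset
    ((S.image fun x => ω z (x - z) / ω v (x - z)) ∪ (S.image fun x => ω y (x - y) / ω v (x - y)))
  simp only [Finset.mem_union, Finset.mem_image, not_or, not_exists, not_and] at hr
  obtain ⟨hr1, hr2⟩ := hr
  obtain ⟨g₁, hg₁, h1, h1'⟩ := step z (r • v) (by
    intro x hx h0
    apply hr1 x hx
    have h3 := hv (x - z) (Finset.mem_union_left _ (Finset.mem_image_of_mem _ hx))
    rw [div_eq_iff h3]
    simp only [map_sub, LinearMap.sub_apply, map_smul, LinearMap.smul_apply, smul_eq_mul] at h0 ⊢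
    linear_combination -h0)
  obtain ⟨g₂, hg₂, h2, h2'⟩ := step (r • v) y (by
    intro x hx h0
    apply hr2 x hx
    have h3 := hv (x - y) (Finset.mem_union_right _ (Finset.mem_image_of_mem _ hx))
    rw [div_eq_iff h3]
    have h4 : ω (y - r • v) (x - r • v) = ω (y - r • v) (x - y) := by
      have : x - r • v = (x - y) + (y - r • v) := by abel
      rw [this, map_add, halt, add_zero]
    rw [h4] at h0
    simp only [map_sub, LinearMap.sub_apply, map_smul, LinearMap.smul_apply, smul_eq_mul] at h0 ⊢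
    linear_combination h0)
  refine ⟨g₂ * g₁, G.mul_mem hg₂ hg₁, ?_, ?_⟩
  · rw [Equiv.Perm.mul_apply, h1, h2]
  · intro x hx
    rw [Equiv.Perm.mul_apply, h1' x hx, h2' x hx]

/-- Infinite transitivity. -/
theorem inf_trans [Infinite K] (hsh : ∀ (d : V) (p : K[X]), sh halt d p ∈ G)
    (hgen : ∀ S : Finset V, 0 ∉ S → ∃ v : V, ∀ u ∈ S, ω v u ≠ 0) (m : ℕ) :
    ∀ x y : Fin m → V, Function.Injective x → Function.Injective y →
      ∃ g ∈ G, ∀ i, g (x i) = y i := by
  classical
  induction m with
  | zero =>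
    intro x y _ _
    exact ⟨1, G.one_mem, fun i => i.elim0⟩
  | succ m ih =>
    intro x y hx hy
    obtain ⟨g, hg, h⟩ := ih (x ∘ Fin.castSucc) (y ∘ Fin.castSucc)
      (hx.comp (Fin.castSucc_injective m)) (hy.comp (Fin.castSucc_injective m))
    obtain ⟨g', hg', h1, h2⟩ := move_one (z := g (x (Fin.last m))) (y := y (Fin.last m)) hsh hgen
      (Finset.univ.image (y ∘ Fin.castSucc)) (by
        rw [Finset.mem_image]
        rintro ⟨i, _, hi⟩
        rw [← h i] at hi
        have h3 := hx (g.injective hi)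
        exact (Fin.castSucc_lt_last i).ne h3) (by
        rw [Finset.mem_image]
        rintro ⟨i, _, hi⟩
        have h3 := hy hi
        exact (Fin.castSucc_lt_last i).ne h3)
    refine ⟨g' * g, G.mul_mem hg' hg, ?_⟩
    intro i
    refine Fin.lastCases ?_ (fun i => ?_) i
    · rw [Equiv.Perm.mul_apply, h1]
    · rw [Equiv.Perm.mul_apply]
      have := h i
      simp only [Function.comp_apply] at this
      rw [this]
      exact h2 _ (Finset.mem_image_of_mem _ (Finset.mem_univ i))

end Q47.SP
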