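import Mathlib
import Pool.Agent.Q47.SP.Trans

/-!
# A regular unipotent one-parameter group in the symplectic group
-/

open Module Finset

namespace Q47.SP

universe u v

theorem exists_sympl {K : Type u} [Field K] (k : ℕ) : ∀ (V : Type v) [AddCommGroup V] [Module K V]
    [FiniteDimensional K V] (ω : V →ₗ[K] V →ₗ[K] K) (_ : ∀ v, ω v v = 0)
    (_ : ∀ u, (∀ v, ω u v = 0) → u = 0) (_ : finrank K V = 2 * k),
    ∃ e f : Fin k → V, (∀ i j, ω (e i) (e j) = 0) ∧ (∀ i j, ω (f i) (f j) = 0) ∧
      ∀ i j, ω (e i) (f j) = if i = j then 1 else 0 := by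
  induction k with
  | zero =>
    intro V _ _ _ ω _ _ _
    exact ⟨fun x => x.elim0, fun x => x.elim0, fun x => x.elim0, fun x => x.elim0,
      fun x => x.elim0⟩
  | succ k ih =>
    intro V _ _ _ ω halt hnd hdim
    have hanti := anti halt
    have hpos : 0 < finrank K V := by omega
    obtain ⟨a, ha⟩ : ∃ a : V, a ≠ 0 := by
      have : Nontrivial V := Module.finrank_pos_iff.1 hpos
      exact exists_ne 0
    obtain ⟨b', hb'⟩ : ∃ v, ω a v ≠ 0 := by
      by_contra hcon
      push Not at hcon
      exact ha (hnd a hcon)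
    obtain ⟨b, hab⟩ : ∃ b, ω a b = 1 := by
      refine ⟨(ω a b')⁻¹ • b', ?_⟩
      rw [map_smul, smul_eq_mul]
      exact inv_mul_cancel₀ hb'
    have hba : ω b a = -1 := by rw [hanti, hab]
    let F : V →ₗ[K] K × K := (ω a).prod (ω b)
    have hF : ∀ v, F v = (ω a v, ω b v) := fun v => rfl
    have hsurj : Function.Surjective F := by
      rintro ⟨s, t⟩
      refine ⟨s • b - t • a, ?_⟩
      rw [hF]
      simp [hab, hba, halt]
    let W : Submodule K V := LinearMap.ker F
    have hW : ∀ v : V, v ∈ W ↔ ω a v = 0 ∧ ω b v = 0 := by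
      intro v
      rw [LinearMap.mem_ker, hF]
      exact Prod.mk_eq_zero
    have hdimW : finrank K W = 2 * k := by
      have h1 := LinearMap.finrank_range_add_finrank_ker F
      rw [LinearMap.range_eq_top.2 hsurj, finrank_top, Module.finrank_prod, finrank_self] at h1
      change 1 + 1 + finrank K W = _ at h1
      omega
    let ω' : W →ₗ[K] W →ₗ[K] K := ω.domRestrict₁₂ W W
    have hω' : ∀ u v : W, ω' u v = ω u v := fun u v => rfl
    obtain ⟨e, f, hee, hff, hef⟩ := ih W ω' (fun w => halt w) (by
      intro u hu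
      apply Subtype.ext
      apply hnd
      intro v
      obtain ⟨hu1, hu2⟩ := (hW u).1 u.2
      have hv : v - (ω a v) • b + (ω b v) • a ∈ W := by
        rw [hW]
        constructor
        · simp [hab, halt]
        · simp [hba, halt]
      have h2 := hu ⟨_, hv⟩
      rw [hω'] at h2
      simp only [map_sub, map_add, map_smul, smul_eq_mul] at h2
      rw [hanti u b, hanti u a, hu1, hu2] at h2
      linear_combination h2) hdimW
    have hca : ∀ z : W, ω a (z : V) = 0 := fun z => ((hW _).1 z.2).1
    have hcb : ∀ z : W, ω b (z : V) = 0 := fun z => ((hW _).1 z.2).2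
    have hca' : ∀ z : W, ω (z : V) a = 0 := fun z => by rw [hanti, hca, neg_zero]
    have hcb' : ∀ z : W, ω (z : V) b = 0 := fun z => by rw [hanti, hcb, neg_zero]
    refine ⟨Fin.cases a fun i => (e i : V), Fin.cases b fun i => (f i : V), ?_, ?_, ?_⟩
    · intro i j
      refine Fin.cases ?_ (fun i => ?_) i
      · refine Fin.cases ?_ (fun j => ?_) j
        · exact halt a
        · exact hca _
      · refine Fin.cases ?_ (fun j => ?_) j
        · exact hca' _
        · exact hee i j
    · intro i j
      refine Fin.cases ?_ (fun i => ?_) i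
      · refine Fin.cases ?_ (fun j => ?_) j
        · exact halt b
        · exact hcb _
      · refine Fin.cases ?_ (fun j => ?_) j
        · exact hcb' _
        · exact hff i j
    · intro i j
      refine Fin.cases ?_ (fun i => ?_) i
      · refine Fin.cases ?_ (fun j => ?_) j
        · simpa using hab
        · simpa [(Fin.succ_ne_zero j).symm] using hca _
      · refine Fin.cases ?_ (fun j => ?_) j
        · simpa [Fin.succ_ne_zero i] using hcb' _
        · have := hef i j
          rw [hω'] at this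
          simpa using this

variable {K : Type u} {V : Type v} [Field K] [AddCommGroup V] [Module K V]

/-- a basis adapted to binary forms -/
theorem exists_w [FiniteDimensional K V] [CharZero K] {n : ℕ} (ω : V →ₗ[K] V →ₗ[K] K) (halt : ∀ v, ω v v = 0)
    (hnd : ∀ u, (∀ v, ω u v = 0) → u = 0) (hdim : finrank K V = 2 * n) (hn : 1 ≤ n) :
    ∃ w : Basis (Fin (2 * n)) K V, ∀ i j : Fin (2 * n), ω (w i) (w j) =
      if (i : ℕ) + j = 2 * n - 1 then ((2 * n - 1).choose i : K) * (-1) ^ (j : ℕ) else 0 := by
  obtain ⟨e, f, hee, hff, hef⟩ := exists_sympl n V ω halt hnd hdim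
  have hanti := anti halt
  let w : Fin (2 * n) → V := fun i => if h : (i : ℕ) < n then e ⟨i, h⟩ else
    ((((2 * n - 1).choose i : ℕ) : K) * (-1) ^ (i : ℕ)) • f ⟨2 * n - 1 - i, by omega⟩
  have hw : ∀ i j : Fin (2 * n), ω (w i) (w j) =
      if (i : ℕ) + j = 2 * n - 1 then ((2 * n - 1).choose i : K) * (-1) ^ (j : ℕ) else 0 := by
    intro i j
    have hi := i.2
    have hj := j.2
    simp only [w]
    by_cases h1 : (i : ℕ) < n
    · by_cases h2 : (j : ℕ) < n
      · rw [dif_pos h1, dif_pos h2, hee, if_neg (by omega)]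
      · rw [dif_pos h1, dif_neg h2, map_smul, smul_eq_mul, hef]
        by_cases h3 : (i : ℕ) + j = 2 * n - 1
        · rw [if_pos h3, if_pos (Fin.ext (by change (i : ℕ) = 2 * n - 1 - j; omega)), mul_one]
          congr 2
          have : (i : ℕ) = 2 * n - 1 - j := by omega
          rw [this, Nat.choose_symm (by omega)]
        · rw [if_neg h3, if_neg (fun h => h3 (by
            have := congrArg Fin.val h
            change (i : ℕ) = 2 * n - 1 - j at this
            omega)), mul_zero]
    · by_cases h2 : (j : ℕ) < n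
      · rw [dif_neg h1, dif_pos h2, map_smul, LinearMap.smul_apply, smul_eq_mul, hanti, hef]
        by_cases h3 : (i : ℕ) + j = 2 * n - 1
        · rw [if_pos h3, if_pos (Fin.ext (by change (j : ℕ) = 2 * n - 1 - i; omega))]
          have hpar : ((-1 : K)) ^ (i : ℕ) * (-1) ^ (j : ℕ) = -1 := by
            rw [← pow_add, h3]
            apply Odd.neg_one_pow
            exact ⟨n - 1, by omega⟩
          have hsq : ((-1 : K)) ^ (j : ℕ) * (-1) ^ (j : ℕ) = 1 := by
            rw [← pow_add]
            exact Even.neg_one_pow ⟨j, rfl⟩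
          have : ((-1 : K)) ^ (i : ℕ) = -(-1) ^ (j : ℕ) := by
            calc ((-1 : K)) ^ (i : ℕ) = (-1) ^ (i : ℕ) * ((-1) ^ (j : ℕ) * (-1) ^ (j : ℕ)) := by
                  rw [hsq, mul_one]
              _ = ((-1) ^ (i : ℕ) * (-1) ^ (j : ℕ)) * (-1) ^ (j : ℕ) := by ring
              _ = -(-1) ^ (j : ℕ) := by rw [hpar]; ring
          rw [this]
          ring
        · rw [if_neg h3, if_neg (fun h => h3 (by
            have := congrArg Fin.val h
            change (j : ℕ) = 2 * n - 1 - i at this
            omega)), neg_zero, mul_zero]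
      · rw [dif_neg h1, dif_neg h2, map_smul, LinearMap.map_smul₂, hff, if_neg (by omega)]
        simp
  have hli : LinearIndependent K w := by
    rw [Fintype.linearIndependent_iff]
    intro g hg i
    have hi := i.2
    let i' : Fin (2 * n) := ⟨2 * n - 1 - i, by omega⟩
    have h1 := congrArg (fun v => ω v (w i')) hg
    simp only [map_sum, map_smul, LinearMap.sum_apply, LinearMap.smul_apply, smul_eq_mul,
      map_zero, LinearMap.zero_apply, hw] at h1
    rw [Finset.sum_eq_single i] at h1
    · rw [if_pos (by change (i : ℕ) + (2 * n - 1 - i) = _; omega)] at h1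
      have h2 : ((2 * n - 1).choose i : K) ≠ 0 :=
        Nat.cast_ne_zero.2 (Nat.choose_pos (by omega)).ne'
      have h3 : ((-1 : K)) ^ (i' : ℕ) ≠ 0 := pow_ne_zero _ (neg_ne_zero.2 one_ne_zero)
      rcases mul_eq_zero.1 h1 with h | h
      · exact h
      · exact absurd h (mul_ne_zero h2 h3)
    · intro b _ hb
      have hb2 := b.2
      rw [if_neg, mul_zero]
      intro h
      apply hb
      apply Fin.ext
      change (b : ℕ) + (2 * n - 1 - i) = 2 * n - 1 at h
      omega
    · intro h
      exact absurd (Finset.mem_univ _) h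
  have hne : Nonempty (Fin (2 * n)) := ⟨⟨0, by omega⟩⟩
  refine ⟨basisOfLinearIndependentOfCardEqFinrank hli (by rw [hdim, Fintype.card_fin]), ?_⟩
  intro i j
  simp only [coe_basisOfLinearIndependentOfCardEqFinrank]
  exact hw i j

section uni

variable {n : ℕ} (w : Basis (Fin (2 * n)) K V)

/-- the rational normal curve -/
noncomputable def vv (s : K) : V := ∑ i : Fin (2 * n), s ^ (i : ℕ) • w i

/-- the linear one-parameter group -/
noncomputable def gg (t : K) : V →ₗ[K] V :=
  w.constr K fun j => ∑ i : Fin (2 * n), (((i : ℕ).choose j : K) * t ^ ((i : ℕ) - j)) • w i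

lemma gg_vv (t s : K) : gg w t (vv w s) = vv w (s + t) := by
  simp only [vv, gg, map_sum, map_smul, Basis.constr_basis, Finset.smul_sum, smul_smul]
  rw [Finset.sum_comm]
  refine Finset.sum_congr rfl fun i _ => ?_
  rw [← Finset.sum_smul]
  congr 1
  rw [add_pow, Fin.sum_univ_eq_sum_range
    (fun j => s ^ j * (((i : ℕ).choose j : K) * t ^ ((i : ℕ) - j))) (2 * n)]
  have hsub : Finset.range ((i : ℕ) + 1) ⊆ Finset.range (2 * n) := by
    intro x hx
    rw [Finset.mem_range] at hx ⊢
    have := i.2
    omega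
  rw [← Finset.sum_subset hsub]
  · refine Finset.sum_congr rfl fun j _ => ?_
    ring
  · intro x _ hx
    rw [Finset.mem_range, not_lt] at hx
    rw [Nat.choose_eq_zero_of_lt (by omega)]
    simp

lemma vv_zero (hn : 1 ≤ n) : vv w 0 = w ⟨0, by omega⟩ := by
  rw [vv, Finset.sum_eq_single ⟨0, by omega⟩]
  · simp
  · intro b _ hb
    have : (b : ℕ) ≠ 0 := fun h => hb (Fin.ext h)
    rw [zero_pow this, zero_smul]
  · intro h
    exact absurd (Finset.mem_univ _) h

lemma vv_span [Infinite K] : Submodule.span K (Set.range (vv w)) = ⊤ := by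
  rw [eq_top_iff, ← w.span_eq, Submodule.span_le]
  rintro _ ⟨i, rfl⟩
  have key := coeff_mem (Submodule.span K (Set.range (vv w))) (2 * n)
    (fun j => if h : j < 2 * n then w ⟨j, h⟩ else 0) (by
      intro c
      have : ∑ j ∈ Finset.range (2 * n), c ^ j • (if h : j < 2 * n then w ⟨j, h⟩ else 0) =
          vv w c := by
        rw [vv, ← Fin.sum_univ_eq_sum_range
          (fun j => c ^ j • (if h : j < 2 * n then w ⟨j, h⟩ else 0)) (2 * n)]
        refine Finset.sum_congr rfl fun j _ => ?_
        rw [dif_pos j.2]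
      rw [this]
      exact Submodule.subset_span ⟨c, rfl⟩) i i.2
  rwa [dif_pos i.2] at key

lemma lin_ext [Infinite K] {M : Type*} [AddCommGroup M] [Module K M] {f g : V →ₗ[K] M}
    (h : ∀ s, f (vv w s) = g (vv w s)) : f = g := by
  apply LinearMap.ext_on_range (vv_span w)
  exact h

lemma gg_add [Infinite K] (s t : K) : gg w (s + t) = gg w s ∘ₗ gg w t := by
  apply lin_ext w
  intro r
  rw [LinearMap.comp_apply, gg_vv, gg_vv, gg_vv]
  congr 1
  ring

lemma gg_zero [Infinite K] : gg w 0 = LinearMap.id := by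
  apply lin_ext w
  intro r
  rw [gg_vv, add_zero, LinearMap.id_apply]

variable {ω : V →ₗ[K] V →ₗ[K] K}
  (hw : ∀ i j : Fin (2 * n), ω (w i) (w j) =
      if (i : ℕ) + j = 2 * n - 1 then ((2 * n - 1).choose i : K) * (-1) ^ (j : ℕ) else 0)

include hw

lemma vv_omega (hn : 1 ≤ n) (s t : K) : ω (vv w s) (vv w t) = (s - t) ^ (2 * n - 1) := by
  simp only [vv, map_sum, map_smul, LinearMap.sum_apply, LinearMap.smul_apply, smul_eq_mul, hw]
  rw [sub_eq_add_neg, add_pow]
  have e : 2 * n - 1 + 1 = 2 * n := by omega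
  rw [e, ← Fin.sum_univ_eq_sum_range
    (fun i => s ^ i * (-t) ^ (2 * n - 1 - i) * ((2 * n - 1).choose i : K)) (2 * n)]
  simp only [Finset.mul_sum]
  rw [Finset.sum_comm]
  refine Finset.sum_congr rfl fun i _ => ?_
  have hi := i.2
  rw [Finset.sum_eq_single (⟨2 * n - 1 - i, by omega⟩ : Fin (2 * n))]
  · rw [if_pos (by change (i : ℕ) + (2 * n - 1 - i) = _; omega)]
    change t ^ (2 * n - 1 - (i : ℕ)) * (s ^ (i : ℕ) * (((2 * n - 1).choose i : K) *
      (-1) ^ (2 * n - 1 - (i : ℕ)))) = _
    rw [neg_pow t]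
    ring
  · intro b _ hb
    have hb2 := b.2
    rw [if_neg, mul_zero, mul_zero]
    intro h
    apply hb
    apply Fin.ext
    change (b : ℕ) = 2 * n - 1 - i
    omega
  · intro h
    exact absurd (Finset.mem_univ _) h

lemma gg_omega [Infinite K] (hn : 1 ≤ n) (t : K) (x y : V) :
    ω (gg w t x) (gg w t y) = ω x y := by
  have h : (ω.comp (gg w t)).compr₂ LinearMap.id = ω.comp (gg w t) := rfl
  have key : ω.compl₁₂ (gg w t) (gg w t) = ω := by
    apply lin_ext w
    intro s
    apply lin_ext w
    intro s'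
    rw [LinearMap.compl₁₂_apply, gg_vv, gg_vv, vv_omega w hw hn, vv_omega w hw hn]
    congr 1
    ring
  have := congrArg (fun f => f x y) key
  rwa [LinearMap.compl₁₂_apply] at this

omit hw in
lemma vv_fin [Infinite K] (hnd : ∀ x, (∀ y, ω x y = 0) → x = 0) (u : V) (hu : u ≠ 0) :
    {s | ω u (vv w s) = 0}.Finite := by
  classical
  let p : Polynomial K := ∑ i : Fin (2 * n), Polynomial.monomial (i : ℕ) (ω u (w i))
  have hp : ∀ s, p.eval s = ω u (vv w s) := by
    intro s
    simp only [p, vv, map_sum, map_smul, smul_eq_mul, Polynomial.eval_finsetSum,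
      Polynomial.eval_monomial]
    refine Finset.sum_congr rfl fun i _ => ?_
    ring
  have hp0 : p ≠ 0 := by
    intro h
    apply hu
    apply hnd
    have h1 : ω u = 0 := by
      apply lin_ext w
      intro s
      rw [← hp, h, Polynomial.eval_zero, LinearMap.zero_apply]
    intro y
    rw [h1, LinearMap.zero_apply]
  apply (p.roots.toFinset.finite_toSet).subset
  intro s hs
  rw [Set.mem_ofPred_eq] at hs
  rw [Finset.mem_coe, Multiset.mem_toFinset, Polynomial.mem_roots hp0, Polynomial.IsRoot, hp, hs]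

end uni

end Q47.SP
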