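import Mathlib

/-!
# Polynomial automorphisms, additive subgroups, symplectomorphisms of affine space
-/

namespace Q47.SP

open MvPolynomial

variable {K ι : Type*} [Field K] [Fintype ι]

/-- `φ` is an automorphism of the affine space `K^ι`: the bijection `φ` and its inverse are given by
polynomials. -/
def IsPolyAut (φ : Equiv.Perm (ι → K)) : Prop :=
  (∃ F : ι → MvPolynomial ι K, ∀ x i, φ x i = eval x (F i)) ∧
    ∃ F : ι → MvPolynomial ι K, ∀ x i, φ.symm x i = eval x (F i)

/-- `Φ` is a nontrivial regular action of the additive group `(K, +)` on the affine space `K^ι`: the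
coordinates of `Φ t x` are polynomials in `t` (the variable `none`) and in the coordinates `x i` (the
variables `some i`). -/
structure IsGaAction (Φ : K → Equiv.Perm (ι → K)) : Prop where
  map_zero : Φ 0 = 1
  map_add : ∀ s t, Φ (s + t) = Φ s * Φ t
  regular : ∃ P : ι → MvPolynomial (Option ι) K,
    ∀ (t : K) (x : ι → K) (i : ι), Φ t x i = eval (fun o => o.elim t x) (P i)
  nontrivial : ∃ t, Φ t ≠ 1

/-- `U` is a `𝔾ₐ`-subgroup: the image of a nontrivial regular action of `(K, +)`. -/
def IsGaSubgroup (U : Subgroup (Equiv.Perm (ι → K))) : Prop :=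
  ∃ Φ : K → Equiv.Perm (ι → K), IsGaAction Φ ∧ (U : Set (Equiv.Perm (ι → K))) = Set.range Φ

/-- The differential at the point `p` of the polynomial map with coordinates `F`, applied to the
vector `u`. -/
noncomputable def diff (F : ι → MvPolynomial ι K) (p u : ι → K) : ι → K :=
  fun i => ∑ j, eval p (pderiv j (F i)) * u j

/-- `φ` is an automorphism of the affine space `K^ι` whose differential preserves the form `ω` at
every point. -/
def IsSymplectomorphism (ω : (ι → K) →ₗ[K] (ι → K) →ₗ[K] K) (φ : Equiv.Perm (ι → K)) : Prop :=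
  IsPolyAut φ ∧ ∃ F : ι → MvPolynomial ι K, (∀ x i, φ x i = eval x (F i)) ∧
    ∀ p u v, ω (diff F p u) (diff F p v) = ω u v

/-- The group `H` acts infinitely transitively on `X`: for all `m ≥ 1`, any `m`-tuple of pairwise
distinct points can be moved to any other such `m`-tuple by an element of `H`. -/
def InfinitelyTransitive {X : Type*} (H : Subgroup (Equiv.Perm X)) : Prop :=
  ∀ m : ℕ, 1 ≤ m → ∀ x y : Fin m → X, Function.Injective x → Function.Injective y →
    ∃ h ∈ H, ∀ i, h (x i) = y i

end Q47.SP
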