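import Mathlib
import Pool.Agent.Q47.SP.Defs
import Pool.Agent.Q47.SP.Bas

/-!
# Polynomial automorphisms: lemmas and the main theorem
-/

namespace Q47.SP

open MvPolynomial

section poly

variable {K ι : Type*} [Field K] [Fintype ι]

omit [Fintype ι] in
lemma IsGaAction.isPolyAut {Φ : K → Equiv.Perm (ι → K)} (h : IsGaAction Φ) (t : K) :
    IsPolyAut (Φ t) := by
  have key : ∀ t, ∃ F : ι → MvPolynomial ι K, ∀ x i, Φ t x i = eval x (F i) := by
    intro t
    obtain ⟨P, hP⟩ := h.regular
    refine ⟨fun i => aeval (fun o : Option ι => o.elim (C t) X) (P i), ?_⟩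
    intro x i
    rw [hP]
    have : (eval x).comp (aeval (fun o : Option ι => o.elim (C t) (X : ι → MvPolynomial ι K))
        : MvPolynomial (Option ι) K →ₐ[K] MvPolynomial ι K).toRingHom =
        eval (fun o => o.elim t x) := by
      apply MvPolynomial.ringHom_ext
      · intro r
        simp
      · intro o
        cases o <;> simp
    rw [← this]
    rfl
  refine ⟨key t, ?_⟩
  have : (Φ t).symm = Φ (-t) := by
    have h1 : Φ t * Φ (-t) = 1 := by rw [← h.map_add, add_neg_cancel, h.map_zero]
    have h2 : Φ (-t) = (Φ t)⁻¹ := eq_inv_of_mul_eq_one_right h1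
    rw [h2]
    rfl
  rw [this]
  exact key (-t)

/-- linear forms -/
noncomputable def lf (ℓ : (ι → K) →ₗ[K] K) : MvPolynomial ι K := by
  classical exact ∑ k, C (ℓ (Pi.single k 1)) * X k

lemma eval_lf (ℓ : (ι → K) →ₗ[K] K) (x : ι → K) : eval x (lf ℓ) = ℓ x := by
  classical
  have hx : x = ∑ k, x k • (Pi.single k (1 : K) : ι → K) := by
    funext j
    simp [Finset.sum_apply, Pi.single_apply]
  conv_rhs => rw [hx]
  rw [lf, map_sum, map_sum]
  refine Finset.sum_congr rfl fun k _ => ?_
  rw [map_mul, eval_C, eval_X, map_smul, smul_eq_mul, mul_comm]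

lemma diff_lf (ℓ : (ι → K) →ₗ[K] K) (p u : ι → K) :
    ∑ j, eval p (pderiv j (lf ℓ)) * u j = ℓ u := by
  classical
  rw [← eval_lf ℓ u, lf, map_sum]
  refine Finset.sum_congr rfl fun j _ => ?_
  rw [map_sum, Finset.sum_eq_single j]
  · simp
  · intro b _ hb
    simp [pderiv_X, hb]
  · intro h
    exact absurd (Finset.mem_univ _) h

/-- linear maps preserving the form are symplectomorphisms -/
lemma symp_linear {ω : (ι → K) →ₗ[K] (ι → K) →ₗ[K] K} {φ : Equiv.Perm (ι → K)}
    (hφ : IsPolyAut φ) (g : (ι → K) →ₗ[K] (ι → K)) (hg : ∀ x, φ x = g x)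
    (hω : ∀ x y, ω (g x) (g y) = ω x y) : IsSymplectomorphism ω φ := by
  refine ⟨hφ, fun i => lf (LinearMap.proj i ∘ₗ g), ?_, ?_⟩
  · intro x i
    rw [eval_lf, hg]
    rfl
  · intro p u v
    have : ∀ u, diff (fun i => lf (LinearMap.proj i ∘ₗ g)) p u = g u := by
      intro u
      funext i
      rw [diff, diff_lf]
      rfl
    rw [this, this, hω]

/-- shears are symplectomorphisms -/
lemma symp_shear {ω : (ι → K) →ₗ[K] (ι → K) →ₗ[K] K} (halt : ∀ x, ω x x = 0)
    {φ : Equiv.Perm (ι → K)}
    (hφ : IsPolyAut φ) (a : ι → K) (q : Polynomial K) (hg : ∀ x, φ x = x + q.eval (ω a x) • a) :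
    IsSymplectomorphism ω φ := by
  classical
  refine ⟨hφ, fun i => X i + C (a i) * Polynomial.aeval (lf (ω a)) q, ?_, ?_⟩
  · intro x i
    have h1 : eval x (Polynomial.aeval (lf (ω a)) q) = q.eval (ω a x) := by
      rw [← eval_lf (ω a) x, Polynomial.aeval_def, Polynomial.hom_eval₂]
      have : (eval x).comp (algebraMap K (MvPolynomial ι K)) = RingHom.id K := by
        ext r
        simp
      rw [this, Polynomial.eval₂_id]
    rw [map_add, map_mul, eval_X, eval_C, h1, hg]
    simp [mul_comm]
  · intro p u v
    have key : ∀ u, diff (fun i => X i + C (a i) * Polynomial.aeval (lf (ω a)) q) p u =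
        u + (eval p (Polynomial.aeval (lf (ω a)) (Polynomial.derivative q)) * ω a u) • a := by
      intro u
      funext i
      rw [diff]
      have h1 : ∀ j, eval p (pderiv j (X i + C (a i) * Polynomial.aeval (lf (ω a)) q)) * u j =
          (if j = i then u j else 0) + a i * eval p (Polynomial.aeval (lf (ω a))
            (Polynomial.derivative q)) * (eval p (pderiv j (lf (ω a))) * u j) := by
        intro j
        rw [map_add, pderiv_C_mul, Derivation.map_aeval, map_add, smul_eq_mul, map_mul, map_mul,
          eval_C, pderiv_X]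
        by_cases h : j = i
        · subst h
          simp
          ring
        · rw [Pi.single_eq_of_ne (Ne.symm h), if_neg h]
          simp
          ring
      simp only [h1, Finset.sum_add_distrib, ← Finset.mul_sum, diff_lf]
      simp
      ring
    rw [key, key]
    simp only [map_add, map_smul, LinearMap.add_apply, LinearMap.smul_apply, smul_eq_mul, halt]
    have : ω u a = - ω a u := by
      have h := halt (u + a)
      simp only [map_add, LinearMap.add_apply, halt, zero_add, add_zero] at h
      linear_combination h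
    rw [this]
    ring


end poly

section actions

variable {K : Type*} [Field K] {ι : Type*} [Fintype ι]

lemma shear_action {ω : (ι → K) →ₗ[K] (ι → K) →ₗ[K] K} (halt : ∀ x, ω x x = 0) (a : ι → K)
    (q : Polynomial K) (hne : ∃ x, q.eval (ω a x) ≠ 0) (ha : a ≠ 0) :
    IsGaAction (fun t : K => sh halt a (Polynomial.C t * q)) where
  map_zero := by
    rw [map_zero, zero_mul, sh_zero]
  map_add s t := by
    rw [map_add, add_mul, sh_add]
  regular := by
    refine ⟨fun i => X (some i) + X none * C (a i) *
      rename some (Polynomial.aeval (lf (ω a)) q), ?_⟩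
    intro t x i
    have h1 : eval x (Polynomial.aeval (lf (ω a)) q) = q.eval (ω a x) := by
      rw [← eval_lf (ω a) x, Polynomial.aeval_def, Polynomial.hom_eval₂]
      have : (eval x).comp (algebraMap K (MvPolynomial ι K)) = RingHom.id K := by
        ext r
        simp
      rw [this, Polynomial.eval₂_id]
    rw [map_add, map_mul, map_mul, eval_X, eval_X, eval_C, eval_rename]
    have h2 : ((fun o : Option ι => o.elim t x) ∘ some) = x := rfl
    rw [h2, h1, sh_apply]
    simp only [Pi.add_apply, Pi.smul_apply, smul_eq_mul, Polynomial.eval_mul, Polynomial.eval_C,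
      Option.elim]
    ring
  nontrivial := by
    obtain ⟨x, hx⟩ := hne
    refine ⟨1, fun h => ?_⟩
    have h1 := congrArg (fun φ : Equiv.Perm (ι → K) => φ x) h
    simp only [sh_apply, map_one, one_mul, Equiv.Perm.one_apply, add_eq_left, smul_eq_zero] at h1
    rcases h1 with h1 | h1
    · exact hx h1
    · exact ha h1

open Module

/-- the linear action as permutations -/
noncomputable def ggp [Infinite K] {n : ℕ} {V : Type*} [AddCommGroup V] [Module K V]
    (w : Basis (Fin (2 * n)) K V) (t : K) :
    Equiv.Perm V where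
  toFun := gg w t
  invFun := gg w (-t)
  left_inv x := by
    rw [← LinearMap.comp_apply, ← gg_add, neg_add_cancel, gg_zero, LinearMap.id_apply]
  right_inv x := by
    rw [← LinearMap.comp_apply, ← gg_add, add_neg_cancel, gg_zero, LinearMap.id_apply]

lemma ggp_apply [Infinite K] {n : ℕ} {V : Type*} [AddCommGroup V] [Module K V]
    (w : Basis (Fin (2 * n)) K V) (t : K) (x : V) : ggp w t x = gg w t x := rfl

lemma gg_action [Infinite K] {n : ℕ} (hn : 1 ≤ n)
    (w : Basis (Fin (2 * n)) K (ι → K)) : IsGaAction (fun t : K => ggp w t) where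
  map_zero := by
    ext x : 1
    rw [ggp_apply, gg_zero]
    rfl
  map_add s t := by
    ext x : 1
    rw [Equiv.Perm.mul_apply, ggp_apply, ggp_apply, ggp_apply, gg_add, LinearMap.comp_apply]
  regular := by
    refine ⟨fun l => ∑ j : Fin (2 * n), rename some (lf (w.coord j)) *
      ∑ i : Fin (2 * n), C (((i : ℕ).choose j : ℕ) : K) * X none ^ ((i : ℕ) - j) * C (w i l), ?_⟩
    intro t x l
    rw [ggp_apply, gg, Basis.constr_apply_fintype, map_sum, Finset.sum_apply]
    refine Finset.sum_congr rfl fun j _ => ?_
    rw [map_mul, eval_rename]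
    have h2 : ((fun o : Option ι => o.elim t x) ∘ some) = x := rfl
    rw [h2, eval_lf, map_sum, Pi.smul_apply, Finset.sum_apply, smul_eq_mul, Basis.coord_apply]
    congr 1
    refine Finset.sum_congr rfl fun i _ => ?_
    simp
  nontrivial := by
    refine ⟨1, fun h => ?_⟩
    have h1 := congrArg (fun φ : Equiv.Perm (ι → K) => φ (vv w 0)) h
    simp only [ggp_apply, gg_vv, Equiv.Perm.one_apply, zero_add] at h1
    have h2 := congrArg (fun v => w.repr v ⟨1, by omega⟩) h1
    simp [vv, Finsupp.single_apply] at h2

end actions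

end Q47.SP
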